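import Mathlib

set_option autoImplicit false

namespace Pool.Agent.Results.MP_5885b3_lc.NoFRP

/-- Relational composition. -/
def comp {X : Type} (R S : Set (X × X)) : Set (X × X) := {p | ∃ y, (p.1, y) ∈ R ∧ (y, p.2) ∈ S}

/-- The implication of weakening relations. -/
def imp {X : Type} [PartialOrder X] (R S : Set (X × X)) : Set (X × X) :=
  {p | ∀ x' y', x' ≤ p.1 → p.2 ≤ y' → (x', y') ∈ R → (x', y') ∈ S}

/-- Weakening relations. -/
def Weak {X : Type} [PartialOrder X] (R : Set (X × X)) : Prop :=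
  comp (comp {p | p.1 ≤ p.2} R) {p | p.1 ≤ p.2} ⊆ R

/-- `h` is a representation of the algebra `(A, c, i)` by weakening relations on the poset `X`. -/
def IsRep {A : Type} (c i : A → A → A) (X : Type) [PartialOrder X] (h : A → Set (X × X)) : Prop :=
  Function.Injective h ∧ (∀ a, Weak (h a)) ∧ (∀ a b, h (c a b) = comp (h a) (h b)) ∧
    ∀ a b, h (i a b) = imp (h a) (h b)

/-- Possible comparisons of `x, z` from those of `x, y` and `y, z`. -/
def ok (s t u : Ordering) : Bool := s == .eq && t == u || t == .eq && s == u ||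
  s != .eq && t != .eq && (s != t || s == u)

theorem ok_iff (x z : ℚ) (s t : Ordering) :
    (∃ y, compare x y = s ∧ compare y z = t) ↔ ok s t (compare x z) = true := by
  rcases lt_trichotomy x z with h | h | h
  · rw [compare_lt_iff_lt.2 h]
    cases s <;> cases t <;> simp only [compare_lt_iff_lt, compare_eq_iff_eq, compare_gt_iff_gt] <;>
      simp [ok, h, h.not_gt, h.ne, exists_between h]
    exacts [⟨z + 1, by linarith, by linarith⟩, ⟨x - 1, by linarith, by linarith⟩,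
      fun y a => by linarith]
  · rw [compare_eq_iff_eq.2 h]
    cases s <;> cases t <;> simp only [compare_lt_iff_lt, compare_eq_iff_eq, compare_gt_iff_gt] <;>
      simp [ok, h, exists_gt, exists_lt]
    exacts [fun y a => a.le, fun y a => a.le]
  · rw [compare_gt_iff_gt.2 h]
    cases s <;> cases t <;> simp only [compare_lt_iff_lt, compare_eq_iff_eq, compare_gt_iff_gt] <;>
      simp [ok, h, h.not_gt, h.ne']
    exacts [fun y a => by linarith, ⟨x + 1, by linarith, by linarith⟩,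
      ⟨z - 1, by linarith, by linarith⟩, (exists_between h).imp fun y a => a.symm]

/-- The discrete order. -/
abbrev disc (X : Type) : PartialOrder X where
  le := Eq
  le_refl _ := rfl
  le_trans _ _ _ := Eq.trans
  le_antisymm _ _ h _ := h

theorem result : ∃ (A : Type) (_ : Finite A) (c i : A → A → A),
    (∃ (X : Type) (_ : PartialOrder X) (h : A → Set (X × X)), IsRep c i X h) ∧
    ¬ ∃ (X : Type) (_ : PartialOrder X) (h : A → Set (X × X)), Finite X ∧ IsRep c i X h := by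
  refine ⟨Set Ordering, inferInstance, fun a b => {u | ∃ s ∈ a, ∃ t ∈ b, ok s t u = true},
    fun a b => aᶜ ∪ b, ⟨ℚ, disc ℚ, fun a => {p | compare p.1 p.2 ∈ a}, fun a b h => ?_,
      ?_, fun a b => Set.ext fun p => ?_, fun a b => Set.ext fun p => ?_⟩, ?_⟩
  · have := fun x y : ℚ => Set.ext_iff.1 h (x, y)
    refine Set.ext fun u => ?_
    cases u
    exacts [this 0 1, this 0 0, this 1 0]
  · rintro a ⟨x, y⟩ ⟨u, ⟨v, rfl : x = v, h⟩, rfl : u = y⟩
    exact h
  · simp only [comp, Set.mem_ofPred_eq, ← ok_iff]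
    exact ⟨fun ⟨_, h, _, k, y, e1, e2⟩ => ⟨y, e1 ▸ h, e2 ▸ k⟩, fun ⟨y, h, k⟩ =>
      ⟨_, h, _, k, y, rfl, rfl⟩⟩
  · exact ⟨fun h x y (e1 : x = p.1) (e2 : p.2 = y) k => by
      subst e1 e2; exact h.resolve_left (not_not.2 k), fun h => imp_iff_not_or.1 (h _ _ rfl rfl)⟩
  rintro ⟨X, _, h, _, h1, -, h2, h3⟩
  beta_reduce at h2 h3
  have top : h Set.univ = Set.univ := by
    have := h3 ∅ ∅
    rw [Set.compl_empty, Set.union_empty] at this
    exact this.trans (Set.eq_univ_of_forall fun p _ _ _ _ k => k)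
  have bot : h ∅ = ∅ := Set.eq_empty_of_forall_notMem fun p hp => by
    have a := h2 ∅ Set.univ
    have b := h2 Set.univ ∅
    simp only [Set.mem_empty_iff_false, false_and, exists_false, and_false, Set.ofPred_false,
      top] at a b
    refine Set.empty_ne_univ (h1 (top ▸ Set.eq_univ_of_forall fun q => ?_))
    rw [b]
    exact ⟨p.1, trivial, a ▸ ⟨p.2, hp, trivial⟩⟩
  have e : ∀ s t u : Ordering, (∀ v, ok s t v = true ↔ v = u) → ∀ x z,
      (x, z) ∈ h {u} ↔ ∃ y, (x, y) ∈ h {s} ∧ (y, z) ∈ h {t} := fun s t u k x z => by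
    have := h2 {s} {t}
    simp only [Set.mem_singleton_iff, exists_eq_left, k, Set.ofPred_eq_eq_singleton] at this
    rw [this]; rfl
  have ll := e .lt .lt .lt (by decide)
  have le := e .lt .eq .lt (by decide)
  have el := e .eq .lt .lt (by decide)
  have ee := e .eq .eq .eq (by decide)
  have loop : ∀ (x z : X) (u : Ordering), (∀ x z, (x, z) ∈ h {u} ↔ ∃ y, (x, y) ∈ h {u} ∧ (y, z) ∈ h {u}) →
      (∀ x z, (x, z) ∈ h {.lt} → ∃ y, (x, y) ∈ h {.lt} ∧ (y, z) ∈ h {u}) → (x, z) ∈ h {.lt} →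
      ∃ y, (x, y) ∈ h {.lt} ∧ (y, y) ∈ h {u} ∧ (y, z) ∈ h {u} := fun x z u k1 k2 k3 => by
    by_contra n
    have : IsStrictOrder {y // (x, y) ∈ h {.lt} ∧ (y, z) ∈ h {u}} fun a b => (a.1, b.1) ∈ h {u} :=
      { irrefl := fun a b => n ⟨a, a.2.1, b, a.2.2⟩
        trans := fun a b c p q => (k1 _ _).2 ⟨_, p, q⟩ }
    obtain ⟨a, -, m⟩ := (Finite.wellFounded_of_trans_of_irrefl (α := {y // (x, y) ∈ h {.lt} ∧
      (y, z) ∈ h {u}}) fun a b => (a.1, b.1) ∈ h {u}).has_min Set.univ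
        ((k2 _ _ k3).elim fun y hy => ⟨⟨y, hy⟩, trivial⟩)
    obtain ⟨y, p, q⟩ := k2 _ _ a.2.1
    exact m ⟨y, p, (k1 _ _).2 ⟨_, q, a.2.2⟩⟩ trivial q
  obtain ⟨⟨x, z⟩, p⟩ : (h {.lt}).Nonempty := Set.nonempty_iff_ne_empty.2 fun k =>
    Set.singleton_ne_empty _ (h1 (k.trans bot.symm))
  obtain ⟨w, -, p, -⟩ := loop x z .lt ll (fun x z => (ll x z).1) p
  obtain ⟨y, p, q, r⟩ := loop w w .eq ee (fun x z => (le x z).1) p
  have a := h3 {.lt} ({.eq}ᶜ ∪ ∅)
  rw [show ({.lt}ᶜ ∪ ({.eq}ᶜ ∪ ∅) : Set Ordering) = Set.univ from Set.eq_univ_of_forall fun u => by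
    cases u <;> simp, top, h3, bot] at a
  exact (Set.ext_iff.1 a (y, y)).1 trivial y y le_rfl le_rfl ((el _ _).2 ⟨w, r, p⟩)
    y y le_rfl le_rfl q

end Pool.Agent.Results.MP_5885b3_lc.NoFRP
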